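import Pool.Agent.BEZ.Stmts

set_option autoImplicit false

namespace Pool.Agent.BEZ.H13

open MvPolynomial

theorem hen_taylor {τ A : Type} [Fintype τ] [CommRing A] (c : A) (U δ : τ → A)
    (hδ : ∀ i, c ∣ δ i) (p : MvPolynomial τ A) :
    c ^ 2 ∣ eval (fun i => U i + δ i) p - eval U p - ∑ i, δ i * eval U (pderiv i p) := by
  classical
  induction p using MvPolynomial.induction_on with
  | C a => simp
  | add p q hp hq =>
    have e : eval (fun i => U i + δ i) (p + q) - eval U (p + q)
        - ∑ i, δ i * eval U (pderiv i (p + q))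
        = (eval (fun i => U i + δ i) p - eval U p - ∑ i, δ i * eval U (pderiv i p))
          + (eval (fun i => U i + δ i) q - eval U q - ∑ i, δ i * eval U (pderiv i q)) := by
      have e2 : ∑ i, δ i * eval U (pderiv i (p + q))
          = ∑ i, δ i * eval U (pderiv i p) + ∑ i, δ i * eval U (pderiv i q) := by
        rw [← Finset.sum_add_distrib]
        refine Finset.sum_congr rfl fun i _ => ?_
        rw [map_add, map_add, mul_add]
      rw [e2, map_add, map_add]
      ring
    rw [e]
    exact dvd_add hp hq
  | mul_X p j hp =>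
    have e2 : ∑ i, δ i * eval U (pderiv i (p * X j))
        = U j * ∑ i, δ i * eval U (pderiv i p) + δ j * eval U p := by
      have e3 : ∀ i, δ i * eval U (pderiv i (p * X j))
          = U j * (δ i * eval U (pderiv i p)) + (if j = i then δ j * eval U p else 0) := by
        intro i
        rw [Derivation.leibniz, pderiv_X]
        simp only [smul_eq_mul, map_add, map_mul, eval_X]
        by_cases h : j = i
        · subst h
          rw [if_pos rfl, Pi.single_eq_same, map_one]
          ring
        · rw [if_neg h, Pi.single_eq_of_ne (by exact fun h' => h h'), map_zero]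
          ring
      rw [Finset.sum_congr rfl fun i _ => e3 i, Finset.sum_add_distrib, ← Finset.mul_sum]
      congr 1
      rw [Finset.sum_ite_eq Finset.univ j]
      simp
    have h1 : c ∣ ∑ i, δ i * eval U (pderiv i p) :=
      Finset.dvd_sum fun i _ => Dvd.dvd.mul_right (hδ i) _
    have h2 : c ∣ eval (fun i => U i + δ i) p - eval U p := by
      have h3 : c ∣ eval (fun i => U i + δ i) p - eval U p - ∑ i, δ i * eval U (pderiv i p) :=
        (Dvd.intro_left (c ^ 1) (by ring)).trans hp
      have h4 := dvd_add h3 h1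
      rwa [sub_add_cancel] at h4
    have h5 : c ^ 2 ∣ δ j * (eval (fun i => U i + δ i) p - eval U p) := by
      rw [pow_two]
      exact mul_dvd_mul (hδ j) h2
    have e : eval (fun i => U i + δ i) (p * X j) - eval U (p * X j)
        - ∑ i, δ i * eval U (pderiv i (p * X j))
        = U j * (eval (fun i => U i + δ i) p - eval U p - ∑ i, δ i * eval U (pderiv i p))
          + δ j * (eval (fun i => U i + δ i) p - eval U p) := by
      rw [e2, map_mul, map_mul, eval_X, eval_X]
      ring
    rw [e]
    exact dvd_add (Dvd.dvd.mul_left hp _) h5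

theorem hen_congr {τ A : Type} [Fintype τ] [CommRing A] (c : A) (U V : τ → A)
    (h : ∀ i, c ∣ U i - V i) (p : MvPolynomial τ A) : c ∣ eval U p - eval V p := by
  have h1 := hen_taylor c V (fun i => U i - V i) h p
  have e : (fun i => V i + (U i - V i)) = U := by
    funext i
    ring
  rw [e] at h1
  have h2 : c ∣ ∑ i, (U i - V i) * eval V (pderiv i p) :=
    Finset.dvd_sum fun i _ => Dvd.dvd.mul_right (h i) _
  have h3 : c ∣ eval U p - eval V p - ∑ i, (U i - V i) * eval V (pderiv i p) :=
    (Dvd.intro_left (c ^ 1) (by ring)).trans h1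
  have h4 := dvd_add h3 h2
  rwa [sub_add_cancel] at h4

theorem hen_inv {F ι τ : Type} [Field F] [Fintype ι] [DecidableEq ι] [Fintype τ] (J : ι → τ → F)
    (h : ∀ l : ι → F, (∀ i, ∑ j, l j * J j i = 0) → ∀ j, l j = 0) :
    ∃ R : τ → ι → F, ∀ j j', ∑ i, J j i * R i j' = if j = j' then 1 else 0 := by
  classical
  let A : Matrix τ ι F := Matrix.of fun i j => J j i
  have hk : LinearMap.ker (Matrix.toLin' A) = ⊥ := by
    rw [LinearMap.ker_eq_bot']
    intro l hl
    funext j
    refine h l (fun i => ?_) j
    have h1 := congrFun hl i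
    rw [Matrix.toLin'_apply] at h1
    simp only [Matrix.mulVec, dotProduct, A, Matrix.of_apply, Pi.zero_apply] at h1
    rw [← h1]
    exact Finset.sum_congr rfl fun j _ => mul_comm _ _
  obtain ⟨g, hg⟩ := LinearMap.exists_leftInverse_of_injective (Matrix.toLin' A) hk
  let B : Matrix ι τ F := LinearMap.toMatrix' g
  have hB : B * A = 1 := by
    have e1 : Matrix.toLin' (B * A) = Matrix.toLin' (1 : Matrix ι ι F) := by
      rw [Matrix.toLin'_mul, Matrix.toLin'_toMatrix', hg, Matrix.toLin'_one]
    exact Matrix.toLin'.injective e1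
  refine ⟨fun i j => B j i, fun j j' => ?_⟩
  have h1 := congrFun (congrFun hB j') j
  rw [Matrix.mul_apply, Matrix.one_apply] at h1
  have h2 : ∑ i, J j i * B j' i = ∑ i, B j' i * A i j :=
    Finset.sum_congr rfl fun i _ => by
      simp only [A, Matrix.of_apply]
      exact mul_comm _ _
  rw [h2, h1]
  by_cases hj : j = j'
  · rw [if_pos hj, if_pos hj.symm]
  · rw [if_neg hj, if_neg fun h' => hj h'.symm]

/-- one Newton step -/
noncomputable def stp {F ι τ : Type} [Field F] [Fintype ι] 
    (G : ι → MvPolynomial τ (PowerSeries F)) (R : τ → ι → F) (U : τ → PowerSeries F) :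
    τ → PowerSeries F :=
  fun i => U i + -∑ j, PowerSeries.C (R i j) * eval U (G j)

/-- the Newton sequence -/
noncomputable def sq {F ι τ : Type} [Field F] [Fintype ι] 
    (G : ι → MvPolynomial τ (PowerSeries F)) (R : τ → ι → F) (η : τ → F) :
    ℕ → τ → PowerSeries F
  | 0 => fun i => PowerSeries.C (η i)
  | n + 1 => stp G R (sq G R η n)

theorem hen_step {F ι τ : Type} [Field F] [Fintype ι] [DecidableEq ι] [Fintype τ]
    (G : ι → MvPolynomial τ (PowerSeries F)) (R : τ → ι → F) (η : τ → F)
    (hR : ∀ j j', ∑ i, PowerSeries.constantCoeff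
      (eval (fun i' => PowerSeries.C (η i')) (pderiv i (G j))) * R i j' =
        if j = j' then 1 else 0)
    (M : ℕ) (U : τ → PowerSeries F) (hU : ∀ i, PowerSeries.X ∣ U i - PowerSeries.C (η i))
    (hG : ∀ j, (PowerSeries.X : PowerSeries F) ^ (M + 1) ∣ eval U (G j)) (j : ι) :
    (PowerSeries.X : PowerSeries F) ^ (M + 2) ∣ eval (stp G R U) (G j) := by
  classical
  set δ : τ → PowerSeries F := fun i => -∑ j, PowerSeries.C (R i j) * eval U (G j) with hδdef
  have hδ : ∀ i, (PowerSeries.X : PowerSeries F) ^ (M + 1) ∣ δ i := fun i =>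
    (dvd_neg).2 (Finset.dvd_sum fun j _ => Dvd.dvd.mul_left (hG j) _)
  have h1 := hen_taylor ((PowerSeries.X : PowerSeries F) ^ (M + 1)) U δ hδ (G j)
  have h2 : (PowerSeries.X : PowerSeries F) ^ (M + 2) ∣
      eval (stp G R U) (G j) - eval U (G j) - ∑ i, δ i * eval U (pderiv i (G j)) := by
    refine dvd_trans ?_ h1
    rw [← pow_mul]
    exact pow_dvd_pow _ (by omega)
  have h3 : ∀ i, (PowerSeries.X : PowerSeries F) ∣ eval U (pderiv i (G j)) -
      PowerSeries.C (PowerSeries.constantCoeff
        (eval (fun i' => PowerSeries.C (η i')) (pderiv i (G j)))) := by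
    intro i
    have h4 := hen_congr (PowerSeries.X : PowerSeries F) U (fun i' => PowerSeries.C (η i')) hU
      (pderiv i (G j))
    have h5 : (PowerSeries.X : PowerSeries F) ∣ eval (fun i' => PowerSeries.C (η i'))
        (pderiv i (G j)) - PowerSeries.C (PowerSeries.constantCoeff
        (eval (fun i' => PowerSeries.C (η i')) (pderiv i (G j)))) := by
      rw [PowerSeries.X_dvd_iff]
      simp
    have h6 := dvd_add h4 h5
    rwa [sub_add_sub_cancel] at h6
  have h4 : (PowerSeries.X : PowerSeries F) ^ (M + 2) ∣ ∑ i, δ i * eval U (pderiv i (G j)) -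
      ∑ i, δ i * PowerSeries.C (PowerSeries.constantCoeff
        (eval (fun i' => PowerSeries.C (η i')) (pderiv i (G j)))) := by
    rw [← Finset.sum_sub_distrib]
    refine Finset.dvd_sum fun i _ => ?_
    rw [← mul_sub, pow_succ]
    exact mul_dvd_mul (hδ i) (h3 i)
  have h5 : ∑ i, δ i * PowerSeries.C (PowerSeries.constantCoeff
        (eval (fun i' => PowerSeries.C (η i')) (pderiv i (G j)))) = - eval U (G j) := by
    have e1 : ∀ i, δ i * PowerSeries.C (PowerSeries.constantCoeff
        (eval (fun i' => PowerSeries.C (η i')) (pderiv i (G j))))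
        = - ∑ j', PowerSeries.C (PowerSeries.constantCoeff
        (eval (fun i' => PowerSeries.C (η i')) (pderiv i (G j))) * R i j') * eval U (G j') := by
      intro i
      rw [hδdef]
      simp only [neg_mul, Finset.sum_mul]
      congr 1
      refine Finset.sum_congr rfl fun j' _ => ?_
      rw [map_mul]
      ring
    rw [Finset.sum_congr rfl fun i _ => e1 i, Finset.sum_neg_distrib, Finset.sum_comm]
    congr 1
    have e2 : ∀ j', ∑ i, PowerSeries.C (PowerSeries.constantCoeff
        (eval (fun i' => PowerSeries.C (η i')) (pderiv i (G j))) * R i j') * eval U (G j')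
        = if j = j' then eval U (G j') else 0 := by
      intro j'
      rw [← Finset.sum_mul, ← map_sum, hR j j']
      split_ifs
      · rw [map_one, one_mul]
      · rw [map_zero, zero_mul]
    rw [Finset.sum_congr rfl fun j' _ => e2 j', Finset.sum_ite_eq Finset.univ j]
    simp
  have h6 := dvd_add h2 h4
  rw [h5] at h6
  have e : eval (stp G R U) (G j) - eval U (G j) - ∑ i, δ i * eval U (pderiv i (G j)) +
      (∑ i, δ i * eval U (pderiv i (G j)) - -eval U (G j)) = eval (stp G R U) (G j) := by ring
  rwa [e] at h6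

theorem hen : HenStmt := by
  classical
  intro F ι τ _ _ _ G η hη hJ
  obtain ⟨R, hR⟩ := hen_inv (fun j i => PowerSeries.constantCoeff
      (eval (fun i' => PowerSeries.C (η i')) (pderiv i (G j)))) hJ
  have key : ∀ n, (∀ i, (PowerSeries.X : PowerSeries F) ∣ sq G R η n i - PowerSeries.C (η i)) ∧
      ∀ j, (PowerSeries.X : PowerSeries F) ^ (n + 1) ∣ eval (sq G R η n) (G j) := by
    intro n
    induction n with
    | zero =>
      refine ⟨fun i => ?_, fun j => ?_⟩
      · simp [sq]
      · rw [zero_add, pow_one, PowerSeries.X_dvd_iff]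
        exact hη j
    | succ n ih =>
      refine ⟨fun i => ?_, fun j => ?_⟩
      · have e : sq G R η (n + 1) i - PowerSeries.C (η i) = (sq G R η n i - PowerSeries.C (η i))
            + -∑ j, PowerSeries.C (R i j) * eval (sq G R η n) (G j) := by
          simp only [sq, stp]
          ring
        rw [e]
        refine dvd_add (ih.1 i) ((dvd_neg).2 (Finset.dvd_sum fun j _ => Dvd.dvd.mul_left ?_ _))
        exact (dvd_pow_self _ (Nat.succ_ne_zero n)).trans (ih.2 j)
      · refine hen_step G R η (fun j j' => ?_) n (sq G R η n) ih.1 ih.2 j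
        rw [hR j j']
  have hd : ∀ n i, (PowerSeries.X : PowerSeries F) ^ (n + 1) ∣ sq G R η (n + 1) i - sq G R η n i := by
    intro n i
    have e : sq G R η (n + 1) i - sq G R η n i
        = -∑ j, PowerSeries.C (R i j) * eval (sq G R η n) (G j) := by
      simp only [sq, stp]
      ring
    rw [e]
    exact (dvd_neg).2 (Finset.dvd_sum fun j _ => Dvd.dvd.mul_left ((key n).2 j) _)
  have hc : ∀ m k i, PowerSeries.coeff m (sq G R η (m + k) i) = PowerSeries.coeff m (sq G R η m i) := by
    intro m k i
    induction k with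
    | zero => rfl
    | succ k ih =>
      rw [← ih]
      have h1 := (PowerSeries.X_pow_dvd_iff.1 (hd (m + k) i)) m (by omega)
      rw [map_sub, sub_eq_zero] at h1
      exact h1
  refine ⟨fun i => PowerSeries.mk fun n => PowerSeries.coeff n (sq G R η n i), fun i => ?_, fun j => ?_⟩
  · rw [← PowerSeries.coeff_zero_eq_constantCoeff_apply, PowerSeries.coeff_mk]
    simp [sq]
  · have hU : ∀ n i, (PowerSeries.X : PowerSeries F) ^ (n + 1) ∣
        (PowerSeries.mk fun n => PowerSeries.coeff n (sq G R η n i)) - sq G R η n i := by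
      intro n i
      rw [PowerSeries.X_pow_dvd_iff]
      intro m hm
      rw [map_sub, PowerSeries.coeff_mk, sub_eq_zero]
      obtain ⟨k, rfl⟩ := Nat.exists_eq_add_of_le (Nat.lt_succ_iff.1 hm)
      exact (hc m k i).symm
    have hz : ∀ n, (PowerSeries.X : PowerSeries F) ^ (n + 1) ∣
        eval (fun i => PowerSeries.mk fun n => PowerSeries.coeff n (sq G R η n i)) (G j) := by
      intro n
      have h1 := hen_congr ((PowerSeries.X : PowerSeries F) ^ (n + 1)) _ _ (hU n) (G j)
      have h2 := dvd_add h1 ((key n).2 j)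
      rwa [sub_add_cancel] at h2
    ext n
    rw [map_zero]
    exact (PowerSeries.X_pow_dvd_iff.1 (hz n)) n (Nat.lt_succ_self n)

end Pool.Agent.BEZ.H13
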